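import Pool.Agent.Lib.H8.Bin2c

set_option maxHeartbeats 400000

namespace Pool.Agent.Results.MP_918176_nt.Both
open PowerSeries Pool.Agent.Lib.H8.Bin2

/-- The power series 1/(1 - x^d) over the integers (d ≥ 1). -/
noncomputable def geo (d : ℕ) : ℤ⟦X⟧ := invOfUnit (1 - X ^ d) 1

/-- c_m(n): coefficient of x^n in (1-x)^{-m} ∏_i (1-x^{2^i})^{-m}; the factors with
i > n are 1 modulo x^{n+1}, so they are left out. -/
noncomputable def c (m n : ℕ) : ℤ :=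
  coeff n (geo 1 ^ m * ∏ i ∈ Finset.range (n + 1), geo (2 ^ i) ^ m)

/-- ν_2(c_m(4n) - c_m(n)), with value ∞ at 0. -/
noncomputable def v (m n : ℕ) : ℕ∞ := emultiplicity (2 : ℤ) (c m (4 * n) - c m n)

/-- The statement Q1. -/
def Q1 : Prop := ∀ k n : ℕ, 1 ≤ k → 1 ≤ n →
  v (2 * k) n = ((padicValNat 2 n + 2 * padicValNat 2 k + 3 : ℕ) : ℕ∞)

/-- The statement Q2. -/
def Q2 : Prop := ∀ k : ℕ,
  (∀ n, 1 ≤ n → ((padicValNat 2 n + 3 : ℕ) : ℕ∞) ≤ v (4 * k + 1) n) ∧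
  (∀ n, 1 ≤ n → ((padicValNat 2 n + 6 : ℕ) : ℕ∞) ≤ v (4 * k + 3) n) ∧
  {n | 1 ≤ n ∧ v (4 * k + 1) n = ((padicValNat 2 n + 3 : ℕ) : ℕ∞)}.Infinite ∧
  {n | 1 ≤ n ∧ v (4 * k + 3) n = ((padicValNat 2 n + 6 : ℕ) : ℕ∞)}.Infinite

lemma exc (m : ℕ) : ∃ F : ℤ⟦X⟧, F * Phi ^ m = 1 ∧ ∀ n, c m n = coeff n F := by
  obtain ⟨F, hF, hS⟩ := exF m m
  exact ⟨F, by rw [Phi, mul_pow]; exact hF, hS⟩

lemma dec (n : ℕ) (hn : 1 ≤ n) : ∃ q, n = 2 ^ padicValNat 2 n * (2 * q + 1) := by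
  obtain ⟨j, o, ⟨q, rfl⟩, rfl⟩ := Nat.exists_eq_two_pow_mul_odd (show n ≠ 0 by omega)
  refine ⟨q, ?_⟩
  rw [padicValNat.mul (by positivity) (by positivity), padicValNat.prime_pow,
    padicValNat.eq_zero_of_not_dvd (by omega), add_zero]

lemma q1 : Q1 := by
  intro k n hk hn
  obtain ⟨o, ho⟩ := dec k hk
  obtain ⟨q, hq⟩ := dec n hn
  generalize padicValNat 2 k = a at ho ⊢
  generalize padicValNat 2 n = j at hq ⊢
  subst ho hq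
  obtain ⟨F, hF, hS⟩ := exc (2 * (2 ^ a * (2 * o + 1)))
  obtain ⟨z, hz, h⟩ := even_val F a o j q hF
  rw [v, hS, hS, h, emultiplicity_eq_coe, show j + 2 * a + 3 = 2 * a + 3 + j by ring]
  refine ⟨dvd_mul_right _ _, fun h3 => ?_⟩
  rw [pow_succ] at h3
  have := (mul_dvd_mul_iff_left (by positivity)).1 h3
  omega

lemma m15 (n : ℕ) (hn : 1 ≤ n) : ((padicValNat 2 n + 7 : ℕ) : ℕ∞) ≤ v 15 n := by
  obtain ⟨q, hq⟩ := dec n hn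
  generalize padicValNat 2 n = j at hq ⊢
  subst hq
  obtain ⟨F, hF, hS⟩ := exc 15
  rw [v, hS, hS, add_comm]
  exact le_emultiplicity_of_pow_dvd (div15 F hF j _)

theorem result : Q1 ∧ ¬ Q2 ∧ ∀ n, 1 ≤ n → ((padicValNat 2 n + 7 : ℕ) : ℕ∞) ≤ v 15 n := by
  refine ⟨q1, fun h => ?_, m15⟩
  obtain ⟨n, hn, h1⟩ := (h 3).2.2.2.nonempty
  have h2 := m15 n hn
  rw [show 4 * 3 + 3 = 15 by norm_num] at h1
  rw [h1] at h2
  have : padicValNat 2 n + 7 ≤ padicValNat 2 n + 6 := by exact_mod_cast h2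
  omega

end Pool.Agent.Results.MP_918176_nt.Both
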